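import Mathlib
import Pool.Agent.H21.UC.Stm
import Pool.Graph.R_seed8.Helper133.Brouwer
import Pool.Graph.R_pool_sql_team_seeded_efc1946e.K1H10.UNI.Lev

set_option autoImplicit false

/-!
# Project KC: LEVK
-/

namespace Pool.Agent.H61.UC

open Finset Classical Pool.Agent.H21.UC
open Pool.Agent.K1H34.UNI (nb)
open Pool.Agent.K1H10.UNI (Box clamp clamp_box clamp_eq continuous_clamp sum_nb_le)

section

variable {V : Type} [Fintype V] {L : ℕ}

noncomputable def E (z : V × Fin L → ℝ) (v : V) (k : ℕ) : ℝ :=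
  if hk : k < L then z (v, ⟨k, hk⟩) else 0

noncomputable def Phi (K : ℕ) (G : SimpleGraph V) (H : (V × Fin L → ℝ) → V × Fin L → ℝ) (h B : ℝ)
    (z : V × Fin L → ℝ) (p : V × Fin L) : ℝ :=
  if (p.2 : ℕ) < K then 1 else
    min 1 (E z p.1 ((p.2 : ℕ) + 1) + (∑ u ∈ nb G p.1, E z u ((p.2 : ℕ) + 1)) / B +
      H z (p.1, ⟨(p.2 : ℕ) - K, lt_of_le_of_lt (Nat.sub_le _ _) p.2.2⟩) / h)

omit [Fintype V] in
lemma continuous_E (v : V) (k : ℕ) : Continuous (fun z : V × Fin L → ℝ => E z v k) := by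
  by_cases hk : k < L
  · simp only [E, hk, dite_true]
    exact continuous_apply _
  · simp only [E, hk, dite_false]
    exact continuous_const

omit [Fintype V] in
lemma E_box {z : V × Fin L → ℝ} (hz : Box z) (v : V) (k : ℕ) : 0 ≤ E z v k ∧ E z v k ≤ 1 := by
  by_cases hk : k < L
  · simp only [E, hk, dite_true]
    exact hz _
  · simp only [E, hk, dite_false]
    exact ⟨le_refl _, zero_le_one⟩

lemma continuous_Phi (K : ℕ) (G : SimpleGraph V) {H : (V × Fin L → ℝ) → V × Fin L → ℝ}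
    (hH : Continuous H) (h B : ℝ) : Continuous (Phi K G H h B) := by
  refine continuous_pi fun p => ?_
  unfold Phi
  by_cases hp : (p.2 : ℕ) < K
  · simp only [hp, if_true]
    exact continuous_const
  · simp only [hp, if_false]
    have h1 : Continuous (fun z => H z (p.1, ⟨(p.2 : ℕ) - K,
      lt_of_le_of_lt (Nat.sub_le _ _) p.2.2⟩)) := (continuous_apply _).comp hH
    have h2 := continuous_E (L := L) p.1 ((p.2 : ℕ) + 1)
    have h3 : Continuous (fun z => ∑ u ∈ nb G p.1, E z u ((p.2 : ℕ) + 1)) :=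
      continuous_finsetSum _ fun u _ => continuous_E (L := L) u ((p.2 : ℕ) + 1)
    exact continuous_const.min ((h2.add (h3.div_const _)).add (h1.div_const _))

lemma Phi_box (K : ℕ) (G : SimpleGraph V) {H : (V × Fin L → ℝ) → V × Fin L → ℝ} (h B : ℝ)
    (h0 : 0 < h) (hB : 0 < B)
    (hH0 : ∀ y : V × Fin L → ℝ, Box y → ∀ p, 0 ≤ H y p)
    {z : V × Fin L → ℝ} (hz : Box z) : Box (Phi K G H h B z) := by
  intro p
  unfold Phi
  by_cases hp : (p.2 : ℕ) < K
  · simp only [hp, if_true]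
    exact ⟨zero_le_one, le_rfl⟩
  · simp only [hp, if_false]
    refine ⟨le_min zero_le_one ?_, min_le_left _ _⟩
    have h1 := (E_box hz p.1 ((p.2 : ℕ) + 1)).1
    have h2 : 0 ≤ (∑ u ∈ nb G p.1, E z u ((p.2 : ℕ) + 1)) / B :=
      div_nonneg (Finset.sum_nonneg fun u _ => (E_box hz u _).1) hB.le
    have h3 : 0 ≤ H z (p.1, ⟨(p.2 : ℕ) - K, lt_of_le_of_lt (Nat.sub_le _ _) p.2.2⟩) / h :=
      div_nonneg (hH0 z hz _) h0.le
    linarith

lemma exists_fixed (K : ℕ) (G : SimpleGraph V) {H : (V × Fin L → ℝ) → V × Fin L → ℝ}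
    (hH : Continuous H) (h B : ℝ) (h0 : 0 < h) (hB : 0 < B)
    (hH0 : ∀ y : V × Fin L → ℝ, Box y → ∀ p, 0 ≤ H y p) : ∃ z, Box z ∧ Phi K G H h B z = z := by
  obtain ⟨z, hz⟩ := Pool.Agent.Helper133.Brouwer.brouwer (fun z => Phi K G H h B (clamp z))
    ((continuous_Phi K G hH h B).comp continuous_clamp) 1 (by
      intro z
      rw [pi_norm_le_iff_of_nonneg zero_le_one]
      intro p
      have := Phi_box K G (H := H) h B h0 hB hH0 (clamp_box z) p
      rw [Real.norm_eq_abs, abs_of_nonneg this.1]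
      exact this.2)
  have hb : Box z := by
    have := Phi_box K G (H := H) h B h0 hB hH0 (clamp_box z)
    rw [← hz]; exact this
  refine ⟨z, hb, ?_⟩
  have := hz
  simp only [clamp_eq hb] at this
  exact this

lemma E_fix (K : ℕ) (G : SimpleGraph V) {H : (V × Fin L → ℝ) → V × Fin L → ℝ} (h B : ℝ)
    {z : V × Fin L → ℝ} (hfix : Phi K G H h B z = z) (v : V) (l : ℕ) (hl : l < L) :
    E z v l = if l < K then 1 else
    min 1 (E z v (l + 1) + (∑ u ∈ nb G v, E z u (l + 1)) / B +
      H z (v, ⟨l - K, lt_of_le_of_lt (Nat.sub_le _ _) hl⟩) / h) := by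
  have e1 : E z v l = z (v, ⟨l, hl⟩) := by
    simp only [E, hl, dite_true]
  rw [e1]
  conv_lhs => rw [← hfix]
  rfl

lemma w_small (K : ℕ) (hK : 1 ≤ K) (L : ℕ) (hL : 2 * K ≤ L) (w : ℕ → ℝ) (n be al : ℝ) (N : ℕ)
    (hn : n = N) (hbe : 1 ≤ be) (hal : 0 ≤ al) (hsm : 2 * al * (2 * be) ^ K < 1)
    (hw0 : ∀ l, 0 ≤ w l) (hwn : ∀ l, w l ≤ n) (hwL : w L = 0)
    (hrec : ∀ l, K ≤ l → l < L → w l ≤ be * w (l + 1) + al * w (l - K))
    (hV : N < 2 ^ (L - 2 * K + 1)) : w (L - K) < 1 := by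
  set b : ℝ := 2 * be with hb
  have hb2 : 2 ≤ b := by linarith
  have hb0 : 0 < b := by linarith
  have hn0 : 0 ≤ n := (hw0 0).trans (hwn 0)
  obtain ⟨m, hm, hmax⟩ := (Finset.Icc (K - 1) L).exists_max_image (fun l => w l * b ^ l)
    ⟨L, Finset.mem_Icc.2 ⟨by omega, le_rfl⟩⟩
  obtain ⟨hm1, hm2⟩ := Finset.mem_Icc.1 hm
  have key : w m * b ^ m ≤ n * b ^ (K - 1) := by
    by_contra hcon
    push Not at hcon
    have hQ : 0 < w m * b ^ m := lt_of_le_of_lt (by positivity) hcon
    have hne1 : m ≠ K - 1 := by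
      rintro rfl
      have := mul_le_mul_of_nonneg_right (hwn (K - 1)) (by positivity : (0:ℝ) ≤ b ^ (K - 1))
      linarith
    have hne2 : m ≠ L := by
      rintro rfl
      rw [hwL, zero_mul] at hQ
      exact lt_irrefl _ hQ
    have hmK : K ≤ m := by omega
    have hmL : m < L := by omega
    have i1 : w (m + 1) * b ^ (m + 1) ≤ w m * b ^ m :=
      hmax (m + 1) (Finset.mem_Icc.2 ⟨by omega, by omega⟩)
    have i2 : w (m - K) * b ^ (m - K) ≤ w m * b ^ m := by
      by_cases hc : K - 1 ≤ m - K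
      · exact hmax (m - K) (Finset.mem_Icc.2 ⟨hc, by omega⟩)
      · have h1 : b ^ (m - K) ≤ b ^ (K - 1) := pow_le_pow_right₀ (by linarith) (by omega)
        have h2 : w (m - K) * b ^ (m - K) ≤ n * b ^ (K - 1) :=
          mul_le_mul (hwn _) h1 (by positivity) hn0
        linarith
    have i3 := hrec m hmK hmL
    have i4 : w m * b ^ m ≤ (be * w (m + 1) + al * w (m - K)) * b ^ m :=
      mul_le_mul_of_nonneg_right i3 (by positivity)
    have i5 : (be * w (m + 1) + al * w (m - K)) * b ^ m =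
        1 / 2 * (w (m + 1) * b ^ (m + 1)) + al * b ^ K * (w (m - K) * b ^ (m - K)) := by
      have e1 : b ^ m = b ^ K * b ^ (m - K) := by
        rw [← pow_add]; congr 1; omega
      have e2 : be * w (m + 1) * b ^ m = 1 / 2 * (w (m + 1) * b ^ (m + 1)) := by
        rw [pow_succ, hb]; ring
      calc (be * w (m + 1) + al * w (m - K)) * b ^ m
          = be * w (m + 1) * b ^ m + al * w (m - K) * b ^ m := by ring
        _ = 1 / 2 * (w (m + 1) * b ^ (m + 1)) + al * w (m - K) * (b ^ K * b ^ (m - K)) := by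
            rw [e2, ← e1]
        _ = _ := by ring
    have i6 : al * b ^ K * (w (m - K) * b ^ (m - K)) ≤ al * b ^ K * (w m * b ^ m) :=
      mul_le_mul_of_nonneg_left i2 (by positivity)
    have i7 : 2 * (al * b ^ K) * (w m * b ^ m) < 1 * (w m * b ^ m) := by
      apply mul_lt_mul_of_pos_right _ hQ
      calc 2 * (al * b ^ K) = 2 * al * b ^ K := by ring
        _ < 1 := hsm
    nlinarith
  have h1 : w (L - K) * b ^ (L - K) ≤ n * b ^ (K - 1) :=
    (hmax (L - K) (Finset.mem_Icc.2 ⟨by omega, by omega⟩)).trans key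
  have h2 : b ^ (L - K) = b ^ (L - 2 * K + 1) * b ^ (K - 1) := by
    rw [← pow_add]; congr 1; omega
  rw [h2, ← mul_assoc] at h1
  have h3 : w (L - K) * b ^ (L - 2 * K + 1) ≤ n :=
    le_of_mul_le_mul_right h1 (by positivity)
  have h4 : n < b ^ (L - 2 * K + 1) := by
    have e1 : n < 2 ^ (L - 2 * K + 1) := by
      rw [hn]; exact_mod_cast hV
    exact e1.trans_le (pow_le_pow_left₀ (by norm_num) hb2 _)
  by_contra hcon
  push Not at hcon
  have h5 : b ^ (L - 2 * K + 1) ≤ w (L - K) * b ^ (L - 2 * K + 1) :=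
    le_mul_of_one_le_left (by positivity) hcon
  linarith

end

theorem t_LEVK : S_LEVK := by
  intro K hK V _ G L H a h d B hHc hH0 hHa hd h0 hB ha hd0 hsm hL hV
  have hH0' : ∀ y : V × Fin L → ℝ, Box y → ∀ p, 0 ≤ H y p := fun y hy => hH0 y hy
  obtain ⟨z, hz, hfix⟩ := exists_fixed K G hHc h B h0 hB hH0'
  have hfx := E_fix K G h B hfix
  have hlow : ∀ v l, l < K → E z v l = 1 := by
    intro v l hl
    rw [hfx v l (by omega), if_pos hl]
  have hge : ∀ v l, L ≤ l → E z v l = 0 := by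
    intro v l hl
    simp only [E, not_lt.2 hl, dite_false]
  have hS0 : ∀ v l, 0 ≤ (∑ u ∈ nb G v, E z u l) / B := fun v l =>
    div_nonneg (Finset.sum_nonneg fun u _ => (E_box hz u _).1) hB.le
  have hHh : ∀ p, 0 ≤ H z p / h := fun p => div_nonneg (hH0 z hz p) h0.le
  have hmono : ∀ v k, E z v (k + 1) ≤ E z v k := by
    intro v k
    by_cases hk : k < L
    · rw [hfx v k hk]
      split_ifs with hkK
      · exact (E_box hz v _).2
      · refine le_min (E_box hz v _).2 ?_
        have h1 := hS0 v (k + 1)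
        have h2 := hHh (v, ⟨k - K, lt_of_le_of_lt (Nat.sub_le _ _) hk⟩)
        linarith
    · rw [hge v (k + 1) (by omega)]
      exact (E_box hz v _).1
  have hanti : ∀ v, Antitone (E z v) := fun v => antitone_nat_of_succ_le (hmono v)
  have hqB : 0 ≤ d / B := div_nonneg hd0 hB.le
  have hlast : ∀ v, E z v (L - K) < 1 := by
    intro v
    have h1 : E z v (L - K) ≤ ∑ v, E z v (L - K) :=
      Finset.single_le_sum (f := fun v => E z v (L - K)) (fun v _ => (E_box hz v _).1) (mem_univ v)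
    refine h1.trans_lt ?_
    refine w_small K hK L hL (fun l => ∑ v, E z v l) (Fintype.card V) (d / B + 1) (a / h)
      (Fintype.card V) rfl (by linarith) (div_nonneg ha h0.le) ?_ ?_ ?_ ?_ ?_ hV
    · calc 2 * (a / h) * (2 * (d / B + 1)) ^ K = (2 * a * (2 * (d / B + 1)) ^ K) / h := by ring
        _ < 1 := by rw [div_lt_one h0]; exact hsm
    · exact fun l => Finset.sum_nonneg fun v _ => (E_box hz v l).1
    · intro l
      calc ∑ v, E z v l ≤ ∑ v : V, (1 : ℝ) := Finset.sum_le_sum fun v _ => (E_box hz v l).2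
        _ = _ := by simp
    · exact Finset.sum_eq_zero fun v _ => hge v L le_rfl
    · intro l hlK hlL
      have hlt : l - K < L := lt_of_le_of_lt (Nat.sub_le _ _) hlL
      have e0 : ∑ v, E z v (l - K) = ∑ v, z (v, ⟨l - K, hlt⟩) := by
        refine Finset.sum_congr rfl fun v _ => ?_
        simp only [E, hlt, dite_true]
      calc ∑ v, E z v l ≤ ∑ v, (E z v (l + 1) + (∑ u ∈ nb G v, E z u (l + 1)) / B +
            H z (v, ⟨l - K, hlt⟩) / h) := by
            refine Finset.sum_le_sum fun v _ => ?_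
            rw [hfx v l hlL, if_neg (by omega)]
            exact min_le_right _ _
        _ = ∑ v, E z v (l + 1) + (∑ v, ∑ u ∈ nb G v, E z u (l + 1)) / B +
            (∑ v, H z (v, ⟨l - K, hlt⟩)) / h := by
            rw [Finset.sum_add_distrib, Finset.sum_add_distrib, Finset.sum_div, Finset.sum_div]
        _ ≤ ∑ v, E z v (l + 1) + (d * ∑ v, E z v (l + 1)) / B +
            (a * ∑ v, z (v, ⟨l - K, hlt⟩)) / h := by
            have q1 := sum_nb_le G (fun u => E z u (l + 1)) (fun u => (E_box hz u _).1) d hd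
            have q2 : (∑ v, H z (v, ⟨l - K, hlt⟩)) / h ≤ (a * ∑ v, z (v, ⟨l - K, hlt⟩)) / h :=
              div_le_div_of_nonneg_right (hHa z hz ⟨l - K, hlt⟩) h0.le
            have q3 : (∑ v, ∑ u ∈ nb G v, E z u (l + 1)) / B ≤ (d * ∑ v, E z v (l + 1)) / B :=
              div_le_div_of_nonneg_right q1 hB.le
            linarith
        _ = (d / B + 1) * ∑ v, E z v (l + 1) + a / h * ∑ v, E z v (l - K) := by
            rw [e0]; ring
  -- the last level with value one
  have hex : ∀ v, ∃ m, K ≤ m ∧ m + K ≤ L ∧ (∀ l, l < m → E z v l = 1) ∧ E z v m < 1 := by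
    intro v
    have h1 : ∃ k, E z v k < 1 := ⟨L - K, hlast v⟩
    have h2 : Nat.find h1 ≤ L - K := Nat.find_min' h1 (hlast v)
    have h3 : K ≤ Nat.find h1 := by
      by_contra hc
      have h4 := Nat.find_spec h1
      rw [hlow v _ (not_le.1 hc)] at h4
      exact lt_irrefl _ h4
    refine ⟨Nat.find h1, h3, by omega, ?_, Nat.find_spec h1⟩
    intro l hl
    exact le_antisymm (E_box hz v l).2 (not_lt.1 (Nat.find_min h1 hl))
  choose m hmK hmL hm1 hm2 using hex
  have hlt1 : ∀ v l, K ≤ l → (hl : l < L) → m v ≤ l →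
      (∑ u ∈ nb G v, E z u (l + 1)) / B + H z (v, ⟨l - K, lt_of_le_of_lt (Nat.sub_le _ _) hl⟩) / h
        < 1 := by
    intro v l hlK hl hml
    have h1 : E z v l < 1 := (hanti v hml).trans_lt (hm2 v)
    rw [hfx v l hl, if_neg (by omega)] at h1
    rcases min_lt_iff.1 h1 with h2 | h2
    · exact absurd h2 (lt_irrefl _)
    · have := (E_box hz v (l + 1)).1
      linarith
  refine ⟨fun v => m v - 1, z, hz, ?_, ?_, ?_, ?_⟩
  · intro v
    have := hmK v
    have := hmL v
    show K ≤ m v - 1 + 1 ∧ m v - 1 + K < L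
    omega
  · intro v l hl
    have := hmK v
    have hl' : (l : ℕ) ≤ m v - 1 := hl
    have h1 := hm1 v l (by omega)
    have e1 : E z v l = z (v, l) := by
      simp only [E, l.2, dite_true, Fin.eta]
    rw [← e1]
    exact h1
  · intro v l hl hlK
    have h2 := hmK v
    have h3 := hmL v
    have hl' : (l : ℕ) ≤ m v - 1 := hl
    have hlK' : m v - 1 < (l : ℕ) + K := hlK
    have h4 := hlt1 v ((l : ℕ) + K) (by omega) (by omega) (by omega)
    have h5 := hS0 v ((l : ℕ) + K + 1)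
    have h6 : H z (v, ⟨(l : ℕ) + K - K, by omega⟩) / h < 1 := by linarith
    rw [div_lt_one h0] at h6
    have e1 : (⟨(l : ℕ) + K - K, by omega⟩ : Fin L) = l := by
      apply Fin.ext
      simp
    rw [e1] at h6
    exact h6.le
  · intro v
    have h2 := hmK v
    have h3 := hmL v
    have h4 := hlt1 v (m v) h2 (by omega) le_rfl
    have h5 := hHh (v, ⟨m v - K, by omega⟩)
    have h6 : (∑ u ∈ nb G v, E z u (m v + 1)) / B < 1 := by linarith
    rw [div_lt_one hB] at h6
    refine le_trans ?_ h6.le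
    calc ((((nb G v).filter (fun u => m v - 1 + 2 ≤ m u - 1)).card : ℝ)) =
          ∑ u ∈ (nb G v).filter (fun u => m v - 1 + 2 ≤ m u - 1), (1 : ℝ) := by
            rw [Finset.sum_const, nsmul_eq_mul, mul_one]
      _ ≤ ∑ u ∈ (nb G v).filter (fun u => m v - 1 + 2 ≤ m u - 1), E z u (m v + 1) := by
            refine Finset.sum_le_sum fun u hu => ?_
            have h7 := (Finset.mem_filter.1 hu).2
            exact (hm1 u (m v + 1) (by omega)).ge
      _ ≤ _ := Finset.sum_le_sum_of_subset_of_nonneg (Finset.filter_subset _ _)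
              fun u _ _ => (E_box hz u _).1

end Pool.Agent.H61.UC
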